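import Pool.Agent.Run7.h564.Fin2

/-! Inscribed squares in Jordan curves that at each of their points are locally monotone, or have
an hourglass, or an inward fold between two arbitrary continuous graphs. -/

set_option autoImplicit false

namespace Pool.Agent.Results.MP_5a3ebe_gt.InwardFolds

open Classical in
/-- The signed distance of `z` to the closed curve `c` (of period `1`): the distance of `z` to the
curve if the curve winds an odd number `n` of times around `z` (there is a continuous logarithm `k`
of `c - z` with `k 1 - k 0 = 2 π n i`), and minus the distance otherwise. -/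
noncomputable def sdist (c : ℝ → ℂ) (z : ℂ) : ℝ :=
  if ∃ n : ℤ, (∃ k : ℝ → ℂ, Continuous k ∧ (∀ t, Complex.exp (k t) = c t - z) ∧
      k 1 - k 0 = n * (2 * Real.pi * Complex.I)) ∧ Odd n
  then Metric.infDist z (Set.range c) else -Metric.infDist z (Set.range c)

/-- The curve `c` contains the four vertices of a square. -/
def HasSquare (c : ℝ → ℂ) : Prop :=
  ∃ z w : ℂ, w ≠ 0 ∧ z ∈ Set.range c ∧ z + w ∈ Set.range c ∧
    z + w + Complex.I * w ∈ Set.range c ∧ z + Complex.I * w ∈ Set.range c

/-- The curve is locally monotone at the parameter `t` (Stromquist): near `t` the scalar product of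
the curve with a fixed vector is strictly increasing. -/
def LocallyMonotone (c : ℝ → ℂ) (t : ℝ) : Prop := ∃ ρ > 0, ∃ w : ℂ, ∀ x y : ℝ,
  |x - t| < ρ → |y - t| < ρ → x < y → 0 < (w * (c y - c x)).re

/-- Hourglass at the parameter `t`: for some parameters `a < a₁ < α ≤ t ≤ β < b₁ < b < a + 1` and
some `κ < 1` the arcs over `[a, α]` and over `[β, b]` are in opposite sectors of slope `κ` with apex
`c t` (of opening `2 arctan κ < 90` degrees); the arc over `[α, β]` is arbitrary but at most
`(1 - κ)² / 10` times as far from `c t` as every point of the arcs over `[a, a₁]` and `[b₁, b]`, and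
every point of the arc over `[a₁, b₁]` is at most `(1 - κ)² / 10` times as far from `c t` as `c a`
and as `c b`. Nothing is supposed about the rest of the curve. -/
def Hourglass (c : ℝ → ℂ) (t : ℝ) : Prop :=
  ∃ (κ a a₁ α β b₁ b : ℝ) (w : ℂ), 0 < κ ∧ κ < 1 ∧ w ≠ 0 ∧ a < a₁ ∧ a₁ < α ∧ α ≤ t ∧ t ≤ β ∧
    β < b₁ ∧ b₁ < b ∧ b < a + 1 ∧
    (∀ s ∈ Set.Icc a α, |(w * (c s - c t)).im| ≤ κ * -(w * (c s - c t)).re) ∧
    (∀ s ∈ Set.Icc β b, |(w * (c s - c t)).im| ≤ κ * (w * (c s - c t)).re) ∧
    (∀ s ∈ Set.Icc α β, ∀ s' ∈ Set.Icc a a₁ ∪ Set.Icc b₁ b,
      10 * ‖c s - c t‖ ≤ (1 - κ) ^ 2 * ‖c s' - c t‖) ∧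
    (∀ s ∈ Set.Icc a₁ b₁, 10 * ‖c s - c t‖ ≤ (1 - κ) ^ 2 * ‖c a - c t‖ ∧
      10 * ‖c s - c t‖ ≤ (1 - κ) ^ 2 * ‖c b - c t‖)

/-- Near the parameter `t` there are no parameters `x`, `y`, `u` such that the points `P = c x`,
`Q = c y`, `V = c u` satisfy `V = P + κ (Q - P)` (for `κ = i` or `κ = -i` and `P ≠ Q` they are the
vertices of an isosceles right triangle with right angle at `P`) and such that the fourth vertex
`Q + κ (Q - P)` of the square `P, Q, Q + κ (Q - P), V` is strictly inside the curve. -/
def NoTriangles (c : ℝ → ℂ) (κ : ℂ) (t : ℝ) : Prop :=
  ∃ ε > 0, ∀ x y u : ℝ, |x - t| < ε → |y - t| < ε → |u - t| < ε →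
    ¬ (c u = c x + κ * (c y - c x) ∧ 0 < sdist c (c y + κ * (c y - c x)))

/-- Inward fold at the parameter `t`: in suitable coordinates `w (z - c t)` (rotated and scaled)
the branch before `t` comes in as the graph of a function `f` over an interval `[0, x₀]`, the branch
after `t` goes out as the graph of a function `g` over an interval `[0, x₁]`, and the points near
`c t` strictly inside the curve are not between the two graphs: near `c t` the region between the
two branches is outside the curve. The two graphs are continuous because the curve is; nothing else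
is supposed about them (they can be nowhere differentiable, of infinite variation, and the curve
need not have tangents at `t`), nor about the width of the region between them. -/
def InwardFold (c : ℝ → ℂ) (t : ℝ) : Prop :=
  ∃ (ρ : ℝ) (w : ℂ) (f g : ℝ → ℝ), 0 < ρ ∧ w ≠ 0 ∧
    (∀ s s', t - ρ ≤ s → s < s' → s' ≤ t → (w * (c s' - c t)).re < (w * (c s - c t)).re) ∧
    (∀ s s', t ≤ s → s < s' → s' ≤ t + ρ → (w * (c s - c t)).re < (w * (c s' - c t)).re) ∧
    (∀ s, t - ρ ≤ s → s ≤ t → (w * (c s - c t)).im = f (w * (c s - c t)).re) ∧
    (∀ s, t ≤ s → s ≤ t + ρ → (w * (c s - c t)).im = g (w * (c s - c t)).re) ∧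
    ∀ z, ‖z - c t‖ < ρ → 0 < sdist c z → 0 < (w * (z - c t)).re →
      0 < (f (w * (z - c t)).re - (w * (z - c t)).im) * (g (w * (z - c t)).re - (w * (z - c t)).im)

/-- Let `c` (continuous, of period `1`, injective on `[0, 1)`) parametrise a Jordan curve, and let
`κ = ± i`. Suppose that for each parameter `t`
(1) the curve is locally monotone at `t`, or
(2) there is an hourglass at `t` (the curve can be arbitrarily wild at and near `t`), or
(3) near `t` no isosceles right triangle on the curve is completed to a square by a point strictly
inside the curve (for the orientation `κ` of the triangle), or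
(4) there is an inward fold between two continuous graphs at `t`.
Then the curve contains the four vertices of a square. Different points may satisfy different
conditions.

For instance (this application is not formalised here) the conditions hold for the boundary of a
convex polygon from which finitely many disjoint fjords are removed, where a fjord is the region
between the graphs of two continuous functions `f < g` on `(0, 1]` with `f 0 = g 0`, in coordinates
of its own, that enters the polygon through one of its sides over `x = 1`; `f` and `g` are only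
supposed to be Lipschitz near `x = 1` and are arbitrary elsewhere, in particular at the tip.

The proof attaches to each isosceles right triangle on the curve four labels: two differences
of directions of its sides and the angles by which its two arcs wind around the fourth vertex of the
square. They are constant in connected families, and at each point the labels of small triangles
with short arcs are not the labels of small triangles with a long arc. At a fold this holds because
the directions of all chords, and the directions from the fourth vertex, avoid a ray; the winding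
number of the fourth vertex is computed from the total variation of the direction of the chords, and
its parity separates the cases. -/
theorem result (c : ℝ → ℂ) (hc : Continuous c) (hper : ∀ t, c (t + 1) = c t)
    (hinj : Set.InjOn c (Set.Ico 0 1)) (κ : ℂ) (hκ : κ = Complex.I ∨ κ = -Complex.I)
    (H : ∀ t, LocallyMonotone c t ∨ Hourglass c t ∨ NoTriangles c κ t ∨ InwardFold c t) :
    HasSquare c := by
  have L : H763R2.An.Loop c := ⟨hc, hper⟩
  have J : H763R2.An.Inj c := H765R3.Peg.inj_of L hinj
  refine Run7.h564.square_fold' L J hκ fun t => ?_
  rcases H t with h | h | ⟨ε, hε, h⟩ | ⟨ρ, w, f, g, h1, h2, h3, h4, h5, h6, h7⟩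
  · exact Or.inl h
  · exact Or.inr (Or.inl h)
  · exact Or.inr (Or.inr (Or.inl ⟨ε, hε, h⟩))
  · exact Or.inr (Or.inr (Or.inr ⟨ρ, w, f, g, ⟨h2, h1, h3, h4, h5, h6⟩, h7⟩))

end Pool.Agent.Results.MP_5a3ebe_gt.InwardFolds
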