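import Pool.Agent.Run7.h564.Fin3

/-! Inscribed squares in Jordan curves that at each of their points are locally monotone, or have
one-sided tangents in different directions, or an hourglass, or are on an outward cap. -/

set_option autoImplicit false

namespace Pool.Agent.Results.MP_5a3ebe_gt.OutwardCaps

open Classical in
/-- The signed distance of `z` to the closed curve `c` (of period `1`): the distance of `z` to the
curve if the curve winds an odd number `n` of times around `z` (there is a continuous logarithm `k`
of `c - z` with `k 1 - k 0 = 2 π n i`), and minus the distance otherwise. -/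
noncomputable def sdist (c : ℝ → ℂ) (z : ℂ) : ℝ :=
  if ∃ n : ℤ, (∃ k : ℝ → ℂ, Continuous k ∧ (∀ t, Complex.exp (k t) = c t - z) ∧
      k 1 - k 0 = n * (2 * Real.pi * Complex.I)) ∧ Odd n
  then Metric.infDist z (Set.range c) else -Metric.infDist z (Set.range c)

/-- The curve `c` contains the four vertices of a square. -/
def HasSquare (c : ℝ → ℂ) : Prop :=
  ∃ z w : ℂ, w ≠ 0 ∧ z ∈ Set.range c ∧ z + w ∈ Set.range c ∧
    z + w + Complex.I * w ∈ Set.range c ∧ z + Complex.I * w ∈ Set.range c

/-- The curve is locally monotone at the parameter `t` (Stromquist): near `t` the scalar product of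
the curve with a fixed vector is strictly increasing. -/
def LocallyMonotone (c : ℝ → ℂ) (t : ℝ) : Prop := ∃ ρ > 0, ∃ w : ℂ, ∀ x y : ℝ,
  |x - t| < ρ → |y - t| < ρ → x < y → 0 < (w * (c y - c x)).re

/-- The curve has one-sided tangents in different directions at the parameter `t`: the unit vectors
from `c t` to `c s` converge for `s → t` from the left and from the right, and the two limits are
different. -/
def Tangents (c : ℝ → ℂ) (t : ℝ) : Prop := ∃ u v : ℂ, ‖u‖ = 1 ∧ ‖v‖ = 1 ∧ u ≠ v ∧
  Filter.Tendsto (fun s => (c s - c t) / (‖c s - c t‖ : ℂ)) (nhdsWithin t (Set.Iio t)) (nhds u) ∧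
  Filter.Tendsto (fun s => (c s - c t) / (‖c s - c t‖ : ℂ)) (nhdsWithin t (Set.Ioi t)) (nhds v)

/-- Hourglass at the parameter `t`: for some parameters `a < a₁ < α ≤ t ≤ β < b₁ < b < a + 1` and
some `κ < 1` the arcs over `[a, α]` and over `[β, b]` are in opposite sectors of slope `κ` with apex
`c t` (of opening `2 arctan κ < 90` degrees); the arc over `[α, β]` is arbitrary but at most
`(1 - κ)² / 10` times as far from `c t` as every point of the arcs over `[a, a₁]` and `[b₁, b]`, and
every point of the arc over `[a₁, b₁]` is at most `(1 - κ)² / 10` times as far from `c t` as `c a`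
and as `c b`. Nothing is supposed about the rest of the curve. -/
def Hourglass (c : ℝ → ℂ) (t : ℝ) : Prop :=
  ∃ (κ a a₁ α β b₁ b : ℝ) (w : ℂ), 0 < κ ∧ κ < 1 ∧ w ≠ 0 ∧ a < a₁ ∧ a₁ < α ∧ α ≤ t ∧ t ≤ β ∧
    β < b₁ ∧ b₁ < b ∧ b < a + 1 ∧
    (∀ s ∈ Set.Icc a α, |(w * (c s - c t)).im| ≤ κ * -(w * (c s - c t)).re) ∧
    (∀ s ∈ Set.Icc β b, |(w * (c s - c t)).im| ≤ κ * (w * (c s - c t)).re) ∧
    (∀ s ∈ Set.Icc α β, ∀ s' ∈ Set.Icc a a₁ ∪ Set.Icc b₁ b,
      10 * ‖c s - c t‖ ≤ (1 - κ) ^ 2 * ‖c s' - c t‖) ∧
    (∀ s ∈ Set.Icc a₁ b₁, 10 * ‖c s - c t‖ ≤ (1 - κ) ^ 2 * ‖c a - c t‖ ∧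
      10 * ‖c s - c t‖ ≤ (1 - κ) ^ 2 * ‖c b - c t‖)

/-- Near the parameter `t` there are no parameters `x`, `y`, `u` such that the points `P = c x`,
`Q = c y`, `V = c u` satisfy `V = P + κ (Q - P)` (for `κ = i` or `κ = -i` and `P ≠ Q` they are the
vertices of an isosceles right triangle with right angle at `P`) and such that the fourth vertex
`Q + κ (Q - P)` of the square `P, Q, Q + κ (Q - P), V` is strictly inside the curve. -/
def NoTriangles (c : ℝ → ℂ) (κ : ℂ) (t : ℝ) : Prop :=
  ∃ ε > 0, ∀ x y u : ℝ, |x - t| < ε → |y - t| < ε → |u - t| < ε →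
    ¬ (c u = c x + κ * (c y - c x) ∧ 0 < sdist c (c y + κ * (c y - c x)))

/-- The parameter `t` is on a cap. There is an arc of the curve, over `[α, β] ∋ t`, with the following
properties, in the coordinate `ζ = w (z - c α)` in which its end points `A = c α` and `B = c β` are `0`
and `1`; `σ` is `1` or `-1`.
* The arc without `A` and `B` is strictly on one side (the side `σ`) of the line `A B`, and it is in
the half-strip over the chord `A B` (its points project to the chord).
* If `c y` comes after `c x` on the arc and the chord from `c x` to `c y` goes exactly backwards (it is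
a positive multiple of `A - B`), then both points are in the right isosceles triangle with
hypotenuse `A B`. In particular the arc can be completely arbitrary inside this triangle.
* No point that is strictly inside the curve, at a distance of at most `d` from `A` or from `B`, is
beside the half-strip on the side of the arc; `d` is an upper bound for the distances of the points
of the arc from `A` and from `B`.
Nothing else is supposed about the arc (it can be nowhere locally monotone) or the rest of the
curve. -/
def Cap (c : ℝ → ℂ) (t : ℝ) : Prop :=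
  ∃ (α β σ d : ℝ) (w : ℂ), α < t ∧ t < β ∧ β < α + 1 ∧ (σ = 1 ∨ σ = -1) ∧
    w * (c β - c α) = 1 ∧
    (∀ s, α < s → s < β → 0 ≤ (w * (c s - c α)).re ∧ (w * (c s - c α)).re ≤ 1 ∧
      0 < σ * (w * (c s - c α)).im) ∧
    (∀ x y, α ≤ x → x < y → y ≤ β → (w * (c y - c x)).im = 0 → (w * (c y - c x)).re < 0 →
      σ * (w * (c x - c α)).im < 1 - (w * (c x - c α)).re ∧
        σ * (w * (c y - c α)).im < (w * (c y - c α)).re) ∧
    (∀ s, α ≤ s → s ≤ β → ‖c s - c α‖ ≤ d ∧ ‖c s - c β‖ ≤ d) ∧
    ∀ p, 0 < sdist c p → (‖p - c α‖ ≤ d ∨ ‖p - c β‖ ≤ d) → 0 ≤ σ * (w * (p - c α)).im →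
      0 < (w * (p - c α)).re ∧ (w * (p - c α)).re < 1

/-- Let `c` (continuous, of period `1`, injective on `[0, 1)`) parametrise a Jordan curve, and let
`κ = ± i`. Suppose that for each parameter `t`
(1) the curve is locally monotone at `t`, or
(2) the curve has one-sided tangents in different directions at `t` (in particular if it has a
non-zero derivative at `t`), or
(3) there is an hourglass at `t` (the curve can be arbitrarily wild at and near `t`), or
(4) near `t` no isosceles right triangle on the curve is completed to a square by a point strictly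
inside the curve (for the orientation `κ` of the triangle), or
(5) the parameter `t` is on a cap.
Then the curve contains the four vertices of a square. Different points may satisfy different
conditions.

Applications (not formalised here). (a) Replace finitely many arcs of a smooth strictly convex
curve, small and at large distances compared with their size, by arbitrary Jordan arcs, each with
the same end points `A`, `B` and inside the open outer right isosceles triangle with hypotenuse
`A B` (slightly longer caps are used for the points `A` and `B` themselves): bumps without any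
regularity. (b) An outward cusp between the graphs of two
arbitrary continuous functions `f < g` on `(0, x₀]` with `f 0 = g 0`, such that for arbitrarily
small `X > 0` the function `f` is minimal and the function `g` is maximal on `[0, X]` at `X` (for
instance `f` non-increasing, `g` non-negative): the parts of the cusp over `[0, X]` are caps, so (5)
holds at its tip.

The proof: the family of triangles that exists if there is no square cannot leave the cap, except
with labels (differences of directions, angles by which arcs wind around the fourth vertex) that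
separate the short triangles from the long ones. -/
theorem result (c : ℝ → ℂ) (hc : Continuous c) (hper : ∀ t, c (t + 1) = c t)
    (hinj : Set.InjOn c (Set.Ico 0 1)) (κ : ℂ) (hκ : κ = Complex.I ∨ κ = -Complex.I)
    (H : ∀ t, LocallyMonotone c t ∨ Tangents c t ∨ Hourglass c t ∨ NoTriangles c κ t ∨
      Cap c t) :
    HasSquare c := by
  have L : H763R2.An.Loop c := ⟨hc, hper⟩
  have J : H763R2.An.Inj c := H765R3.Peg.inj_of L hinj
  refine Run7.h564.square_cap' L J hκ fun t => ?_
  rcases H t with h | ⟨u, v, hu, hv, huv, h1, h2⟩ | h | ⟨ε, hε, h⟩ |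
    ⟨α, β, σ, d, w, h1, h2, h3, h4, h5, h6, h7, h8, h9⟩
  · exact Or.inl h
  · refine Or.inr (Or.inr (Or.inl ⟨u, v, hu, hv, huv, ?_, ?_⟩))
    · refine h1.congr fun s => ?_
      rw [Complex.ofReal_inv, div_eq_inv_mul]
    · refine h2.congr fun s => ?_
      rw [Complex.ofReal_inv, div_eq_inv_mul]
  · exact Or.inr (Or.inl h)
  · exact Or.inr (Or.inr (Or.inr (Or.inl ⟨ε, hε, h⟩)))
  · exact Or.inr (Or.inr (Or.inr (Or.inr ⟨α, β, σ, d, w, h1, h2, h3, h4, h5, h6, h7, h8, h9⟩)))

end Pool.Agent.Results.MP_5a3ebe_gt.OutwardCaps
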