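import Pool.Agent.Run7.h118.TMFinal

/-! Inscribed squares and rectangles in Jordan curves that consist of two weakly monotone arcs. -/

set_option autoImplicit false

namespace Pool.Agent.Results.MP_5a3ebe_gt.TwoMonotoneArcs

/-- Let `C` be a Jordan curve parametrised by `c : ℝ → ℂ` of period `1`. Suppose that `C` consists of
two arcs which are weakly monotone in one common direction: for some `w ≠ 0` and
`s₀ ≤ s₁ ≤ s₀ + 1` the function `Re (w c)` is nondecreasing on `[s₀, s₁]` and nonincreasing on
`[s₁, s₀ + 1]`. Then `C` contains the vertices of rectangles of every shape: for every angle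
`0 < θ < π` there are points `z + d`, `z - d`, `z + exp (i θ) d`, `z - exp (i θ) d` on `C` with
`d ≠ 0`, the vertices of a rectangle with centre `z` whose diagonals form the angle `θ`. For
`θ = π / 2` they are the vertices of a square.

Nothing else is supposed about the two arcs: they need not be Lipschitz or rectifiable, they may
contain segments orthogonal to the direction, and they may form arbitrary cusps at the two ends. -/
theorem result (c : ℝ → ℂ) (hc : Continuous c) (hper : ∀ t, c (t + 1) = c t)
    (hinj : Set.InjOn c (Set.Ico 0 1)) (w : ℂ) (hw : w ≠ 0) (s₀ s₁ : ℝ) (h01 : s₀ ≤ s₁)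
    (h10 : s₁ ≤ s₀ + 1) (hm : MonotoneOn (fun t => (w * c t).re) (Set.Icc s₀ s₁))
    (ha : AntitoneOn (fun t => (w * c t).re) (Set.Icc s₁ (s₀ + 1)))
    (θ : ℝ) (h0 : 0 < θ) (hπ : θ < Real.pi) :
    ∃ z d : ℂ, d ≠ 0 ∧ z + d ∈ Set.range c ∧ z - d ∈ Set.range c ∧
      z + Complex.exp (θ * Complex.I) * d ∈ Set.range c ∧
      z - Complex.exp (θ * Complex.I) * d ∈ Set.range c :=
  Pool.Agent.Run7.h118.TG.Loc.weak hc hper hinj hw h01 h10 hm ha h0 hπ

end Pool.Agent.Results.MP_5a3ebe_gt.TwoMonotoneArcs
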